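import Pool.Agent.KS6_93.CG.Size

/-!
# L-functions of motives and the centralizers of the elements of p-groups of class two

Let `T i j k` (`i < a`, `j < b`, `k < c`) be integers. For a field `κ` the triples `(v, w, z)` in
`κ ^ a × κ ^ b × κ ^ c` form a group `G_T(κ)` with the multiplication
`(v, w, z) (v', w', z') = (v + v', w + w', z + z' + T(v, w'))`, `T(v, w')_k = ∑ T i j k v_i w'_j` (`Grp`):
the points of a unipotent group scheme over `ℤ`, nilpotent of class at most two. For a finite field with
`q` elements and a number `r` let `Cent T r κ` be the set of the subgroups of `G_T(κ)` that are the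
centralizer `C(g)` of an element `g` and have the index `q ^ r`.

For a smooth projective variety `X` over `ℚ`, given by equations with integral coefficients, and a
set `S` of primes which contains the primes of bad reduction, the Euler product
`L^i_S(X, s) = ∏_{p ∉ S} det(1 - Frob_p p^{-s} | H^i(X))⁻¹` is determined by the numbers of points of
`X` over the finite fields of characteristic `p ∉ S`; by Deligne the eigenvalues of weight `i` are the
ones with the absolute value `p ^ (i / 2)`. As in the hand-in `SmoothAffineCubics` we use this for the
definition of the L-function of weight `i` of numbers of points (`IsFrob`, `eulerFactor`, `IsL`; it is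
unique, `Pool.Agent.KS6_3.B2.isL_unique`), for schemes of finite type over `ℤ` and for the sets `Cent T r`.

**Theorem.** (1) For every closed subscheme `X` of a projective space over `ℤ` there are `T`, `r` and `t`
with `r ≥ 1` such that `#Cent T r κ = #X(κ)` for all finite fields `κ`. Therefore the L-functions of `X` of all weights
`i`, for all sets `S`, are the ones of the numbers of the centralizers of the index `q ^ r`: Q1 for
`L^i_S(X, s)` is a property of these centralizers. These are the centralizers of the noncentral elements
with the fewest conjugates (all elements with less than `q ^ r` conjugates are central), and the number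
of the conjugacy classes with `q ^ r` elements is `q ^ t (q - 1) #X(κ)`. (2) Also for every closed
subscheme of an affine space over `ℤ` there are `T` and `r` such that `#Cent T r κ = #X(κ)`. (3) For
every closed subscheme `X` of the affine space of dimension `N` there is a tensor `T` with `a = N + 1`
such that the number of the conjugacy classes of `G_T(κ)` with `q ^ r` elements which are contained in the
coset `v_0 = 1, w = 0` of the abelian normal subgroup `v_0 = 0, w = 0` (`Cls`) is `q ^ t #X(κ)`. (4) For
every `N` the L-functions of all closed subschemes of the affine space of dimension `N` have a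
meromorphic continuation if and only if those of the numbers of these classes have, for all `T` with
`a = N + 1` and all `r`.

Proof. For `x ∈ κ ^ (n + 1)`, `x ≠ 0`, and a number `d ≥ 1` the solutions of the equations
`x_i w_(s, j) = x_j w_(s, i)` (indices: words `s` with letters `0, …, n`) are the multiples of the tensor
`x ⊗ ⋯ ⊗ x`; the equations `x_i ∑_s Φ_s w_s = 0`, where `F = ∑_s Φ_s x_(s_1) ⋯ x_(s_d)` is one of the
equations of `X`, leave a line if `[x] ∈ X(κ)` and `0` if not. All this is linear in `x` and in `w`, which
gives a tensor `T₁`. Now let `T(v, w) = (T₁(x, w), u ⊗ w)` for `v = (x, u)`. For an element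
`g = (x, u, w, z)` with `w ≠ 0` or `u ≠ 0` the index of `C(g)` is at least `q ^ b`; for `w = 0`, `u = 0` the
index is `q ^ (b - dim K_x)` and `C(g)` is given by `K_x`, the kernel of `w ↦ T₁(x, w)`. The line `K_x`
determines the point `[x]`. For (4): the number in (3) is, up to a power of `q`, the number of the `x` such
that the matrix `T((1, x), ·)` has the rank `r`, and the matrices of rank `≤ r` form a closed subscheme.
-/

set_option autoImplicit false

open MvPolynomial Pool.Agent.KS6_3.B2 Pool.Agent.KS6_93.CG

namespace Pool.Agent.Results.MP_148101_nt.CentralizersOfPGroups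

/-- **Theorem.** (1) Every closed subscheme of a projective space over `ℤ` is realized by the
centralizers of the noncentral elements with the fewest conjugates of p-groups of class two. (2) The
closed subschemes of the affine spaces over `ℤ` are also realized by centralizers, and (3) by conjugacy
classes. (4) For every `N` all L-functions of the closed subschemes of the affine space of dimension `N`
have a meromorphic continuation if and only if those of the numbers of the conjugacy classes do. -/
theorem result :
    (∀ (n : ℕ) (G : Finset (MvPolynomial (Fin n) ℤ)), (∀ F ∈ G, ∃ d, F.IsHomogeneous d) →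
      ∃ (a b c : ℕ) (T : Fin a → Fin b → Fin c → ℤ) (r t : ℕ),
        1 ≤ r ∧ Realizes 0 (fun κ _ => projPoints G κ) (fun κ _ => Cent T r κ) ∧
        ∀ (κ : Type) [Field κ] [Finite κ],
          Nat.card (Siz T r κ) =
            Nat.card κ ^ t * (Nat.card κ - 1) * Nat.card (projPoints G κ) ∧
          ∀ g : Grp T κ, (Subgroup.centralizer {g}).index < Nat.card κ ^ r →
            g ∈ Subgroup.center (Grp T κ)) ∧
    (∀ (N : ℕ) (G : Finset (MvPolynomial (Fin N) ℤ)),
      ∃ (a b c : ℕ) (T : Fin a → Fin b → Fin c → ℤ) (r : ℕ),
        Realizes 0 (fun κ _ => affPoints G κ) fun κ _ => Cent T r κ) ∧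
    (∀ (N : ℕ) (G : Finset (MvPolynomial (Fin N) ℤ)),
      ∃ (b c : ℕ) (T : Fin (N + 1) → Fin b → Fin c → ℤ) (r t : ℕ),
        Realizes t (fun κ _ => affPoints G κ) fun κ _ => Cls T r κ) ∧
    ∀ N : ℕ, (∀ G : Finset (MvPolynomial (Fin N) ℤ),
        AllContinue (count fun κ _ => affPoints G κ)) ↔
      ∀ (b c : ℕ) (T : Fin (N + 1) → Fin b → Fin c → ℤ) (r : ℕ),
        AllContinue (count fun κ _ => Cls T r κ) := by
  refine ⟨fun n G hG => ?_, fun N G => ?_, fun N G => ?_, fun N => ?_⟩
  · obtain ⟨a, b, c, T, r, t, hr, h⟩ := siz_proj G hG
    refine ⟨a, b, c, T, r, t, hr, realizes fun κ _ _ => ?_, fun κ _ _ => (h κ).2⟩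
    rw [pow_zero, one_mul]
    exact (h κ).1
  · obtain ⟨a, b, c, T, r, h⟩ := cent_aff G
    refine ⟨a, b, c, T, r, realizes fun κ _ _ => ?_⟩
    rw [pow_zero, one_mul]
    exact h κ
  · obtain ⟨b, c, T, r, t, h⟩ := cls_aff G
    exact ⟨b, c, T, r, t, realizes h⟩
  · exact ⟨fun h b c T r => cont_cls h T r, cont_aff⟩

end Pool.Agent.Results.MP_148101_nt.CentralizersOfPGroups
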