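import Pool.Agent.KS6_22.AL.Fin

/-!
# The L-functions of the fibres of a family over the affine line at random points of degree `N`

Let `F` be a number field. A family of motives over the affine line over the ring of integers of `F`
(more generally a constructible sheaf, or a complex of such sheaves) has a Frobenius conjugacy class
at each closed point `x`, and we only use the eigenvalues `α x i`, `i = 1, …, m`, which are arbitrary
complex numbers with `|α x i| ≤ N(x) ^ θ` in this file. We consider `r` such families
`α_1, …, α_r` and integers `e_1, …, e_r`. A point of degree `N` of the affine line over `F` with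
integral coordinate is given by a monic irreducible polynomial `f` of degree `N` over the ring of
integers, and the fibre of the family over it is a motive over the field `F(θ)`, `f(θ) = 0`, with the
L-function

`L(f, α_k, s) = ∏_w ∏_i (1 - α_k (x(w)) i N(w) ^ (-s))⁻¹`,

where `w` runs through the primes of `F(θ)` which do not divide `f'(θ)`, and `x(w)` is the closed point
of the affine line which is the image of `w` under the morphism given by `θ`.

The theorem computes the mean over all `f` of the products of the powers with the exponents `e_k` of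
the `L(f, α_k, s_k)`: it is the product over the multidegrees `j = (j_1, …, j_r)` with
`0 < j_1 + … + j_r ≤ N` of the L-functions over all closed points of the affine line

`L(A¹, ⨂_k Sym ^ (j_k) (e_k α_k), u) = ∏_x ∏_μ (1 - α(x) ^ μ N(x) ^ (-u)) ^ (- a μ)`

at `u = 1 + j_1 s_1 + … + j_r s_r`, times a function `H` which is holomorphic for
`Re s_k > θ_k + 1 / (N + 1)`. The L-functions over the closed points of the affine line are products
of L-functions of the cohomology of the total space of the family and of its fibre powers. So the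
mean of the L-functions of the fibres has a meromorphic continuation to the region
`Re s_k > θ_k + 1 / (N + 1)` if the L-functions of the total space and of its fibre powers have a
meromorphic continuation.

Owner helper22.
-/

set_option autoImplicit false

open Filter Topology Polynomial NumberField IsDedekindDomain
open Pool.Agent.KS6_22.MF Pool.Agent.KS6_22.SP Pool.Agent.KS6_22.AL
open scoped ComplexConjugate

namespace Pool.Agent.Results.MP_148101_nt.FibresAtRandomPoints

/-- **The mean value of the L-functions of the fibres at the points of degree `N`.** -/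
theorem result (F : Type) [Field F] [NumberField F] {ι : Type} [Fintype ι]
    (ω : Module.Basis ι ℤ (𝓞 F)) (N r : ℕ) (hN : N ≠ 0) (m : Fin r → ℕ) (e : Fin r → ℤ)
    (α : ∀ k, ClPt F → Fin (m k) → ℂ) (θ : Fin r → ℝ)
    (hα : ∀ k x i, ‖α k x i‖ ≤ (nx x : ℝ) ^ θ k) :
    (∀ (k : Fin r) (c : Fin N → 𝓞 F) [Fact (Irreducible (fpoly c))],
      (∀ w : HeightOneSpectrum (𝓞 (Fld c)), aeval (theta c) (derivative (mon c)) ∉ w.asIdeal →
        nx (below F (theta c) w) = Ideal.absNorm w.asIdeal) ∧
      ∀ s : ℂ, 1 + θ k < s.re → Multipliable fun w : HeightOneSpectrum (𝓞 (Fld c)) =>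
        fibFactor (α k) (theta c) (aeval (theta c) (derivative (mon c))) w s) ∧
    (∀ (j : Fin r → ℕ) (u : ℂ), 2 + ∑ k, (j k : ℝ) * θ k < u.re →
      (Multipliable fun x : ClPt F => totFactor α e j u x) ∧ Ltot α e j u ≠ 0) ∧
    ∃ H : (Fin r → ℂ) → ℂ,
      DifferentiableOn ℂ H {s | ∀ k, θ k + 1 / ((N : ℝ) + 1) < (s k).re} ∧
      (∃ κ : ℝ, ∀ s : Fin r → ℂ, (∀ k, θ k + κ < (s k).re) → H s ≠ 0) ∧
      ((∀ k x, ∃ π : Equiv.Perm (Fin (m k)), ∀ i, α k x (π i) = conj (α k x i)) →
        ∀ s : Fin r → ℂ, (∀ k, θ k + 1 / ((N : ℝ) + 1) < (s k).re ∧ (s k).im = 0) → H s ≠ 0) ∧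
      ∀ s : Fin r → ℂ, (∀ k, 1 + θ k < (s k).re) →
        Tendsto (fun B : Fin N → ι → ℕ =>
          mean (FamB ω B) fun c => ∏ k, Lfib (α k) c (s k) ^ e k) atTop
          (𝓝 ((∏ j ∈ degs r N, Ltot α e j (1 + ∑ k, (j k : ℂ) * s k)) * H s)) := by
  classical
  refine ⟨fun k c _ => ⟨fun w hw => nx_below (dt_theta c) w hw, fun s hs => ?_⟩,
    fun j u hu => ?_, HA N e α, HA_diff N e hα, ?_, ?_, fun s hs => ?_⟩
  · exact (fib_hasProd (hα k) (dt_theta c) hs).1.multipliable
  · exact ⟨(tot_hasProd hα e j hu).1.multipliable, (tot_hasProd hα e j hu).2⟩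
  · obtain ⟨κ, hκ, h⟩ := eA_far N e hα
    have hM1 : 1 / ((N : ℝ) + 1) ≤ 1 := by
      rw [div_le_one (by positivity)]
      have : (0 : ℝ) ≤ N := Nat.cast_nonneg N
      linarith
    exact ⟨κ, fun s hs => HA_ne N e hα (OmT_mono (by linarith) hs) fun v => h s hs v⟩
  · intro hc s hs
    have hM0 : (0 : ℝ) ≤ 1 / ((N : ℝ) + 1) := by positivity
    have hs1 : s ∈ OmT θ (1 / ((N : ℝ) + 1)) := fun k => (hs k).1
    refine HA_ne N e hα hs1 fun v => ?_
    obtain ⟨y, hy0, hy⟩ := eA_pos (N := N) e hα hc (OmT_mono hM0 hs1) (fun k => (hs k).2) v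
    rw [hy]
    exact_mod_cast hy0.ne'
  · exact tendsto_mainF ω hN e hα hs

end Pool.Agent.Results.MP_148101_nt.FibresAtRandomPoints
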