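import Pool.Agent.KS6_57.OR.Trans

/-!
# L-functions of motives and affine representations of one-relator groups

For a finite field `κ` and a group `Γ` let `M_Γ(κ)` be the set of the conjugacy classes of the
homomorphisms with non-abelian image from `Γ` to the group of the affine maps `x ↦ a x + b` of the
line over `κ` (`Moduli`).

For a smooth projective variety `X` over `ℚ`, given by equations with integral coefficients, and a
set `S` of primes which contains the primes of bad reduction, the Euler product
`L^i_S(X, s) = ∏_{p ∉ S} det(1 - Frob_p p^{-s} | H^i(X))⁻¹` is determined by the numbers of points of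
`X` over the finite fields of characteristic `p ∉ S`; by Deligne the eigenvalues of weight `i` are the
ones with the absolute value `p ^ (i / 2)`. As in the hand-in `SmoothAffineCubics` we use this for the
definition of the L-function of weight `i` of numbers of points (`IsFrob`, `eulerFactor`, `IsL`; it is
unique, `Pool.Agent.KS6_3.B2.isL_unique`), for schemes of finite type over `ℤ` and for `M_Γ`.

**Theorem.** (1) For every closed subscheme `X` of a projective space over `ℤ` there are a group `Γ`
with one defining relation, `c ≥ 0` and a polynomial `P` with integral coefficients such that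
`#M_Γ(κ) = P(q) + q ^ c #X(κ)` for all finite fields `κ` of odd characteristic, `q = #κ`. Therefore the
L-function of `X` of every weight `i` is, shifted by `c`, the L-function of weight `i + 2 c` of `M_Γ`,
for odd `i`, and for even `i` this is true up to a power of a shifted zeta function. So Q1 for
`L^i_S(X, s)` (`2 ∈ S`) is a property of the weight `i + 2 c` of the representations of a one-relator
group in the affine group. (2) The same is true for the closed subschemes of the affine spaces.
(3) For every `n ≥ 2` the L-functions of all closed subschemes of the affine space of dimension `n`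
have a meromorphic continuation if and only if those of the groups with `n` generators and one
defining relation have; the relations in the commutator subgroup suffice.

Proof. Let `Γ = ⟨x_1, …, x_n | w⟩`. A homomorphism from `Γ` to the affine group is given by
`x_i ↦ (a_i, b_i)` with `w(a) = 1` and `∑ D_i(a) b_i = 0`, `D_i` the Fox derivatives of `w`. So for
every `a ≠ 1` with `w(a) = 1` there are `1 + q + ⋯ + q ^ (n - 3)` conjugacy classes, if `D(a) ≠ 0`, and
`1 + q + ⋯ + q ^ (n - 2)`, if `D(a) = 0` (`S_MOD`). For the relation
`x ^ (2 - y) ∏_j [y, t_j] ^ (f_j(t))`, `j ≤ m`, the conditions are `x = 1`, `y = 2` and `f_j(t) = 0`: every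
closed subscheme of the torus of dimension `m` given by `m` equations occurs. The complement of a
hypersurface `F = 0` in the affine space of dimension `M` has, in odd characteristic, as many points
as the system `s F((ε_i - 1) t_i) = 1`, `(ε_i - 1) (ε_i - 2) = 0`, `(ε_i - 2) (t_i - 1) = 0` of
`2 M + 1` equations in the torus of dimension `2 M + 1`. Every closed subscheme `g_j = 0` of an affine
space can be replaced by the hypersurface `∑ z_j g_j = 1`, and every projective scheme by an affine
bundle (Jouanolou). For (3) the relations `R ^ f(x)`, `R = ∏ [x_i, y_i]`, are used; they give the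
hypersurface `f = 0` in the torus whose dimension is the number of the generators (even), and the
affine space is divided into tori.
-/

set_option autoImplicit false

open MvPolynomial Pool.Agent.KS6_3.B2 Pool.Agent.KS6_57.OR

namespace Pool.Agent.Results.MP_148101_nt.OneRelatorGroups

/-- **Theorem.** (1) Every closed subscheme of a projective space over `ℤ` is realized by a
one-relator group. (2) So is every closed subscheme of an affine space over `ℤ`. (3) For every `n ≥ 2`
all L-functions of the closed subschemes of the affine space of dimension `n` have a meromorphic
continuation if and only if those of the one-relator groups with `n` generators have, and it is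
enough to consider the relators in the commutator subgroup. -/
theorem result :
    (∀ (N : ℕ) (G : Finset (MvPolynomial (Fin (N + 1)) ℤ)), (∀ F ∈ G, ∃ d, F.IsHomogeneous d) →
      ∃ (n : ℕ) (w : FreeGroup (Fin (n + 1))) (c : ℕ) (P : Polynomial ℤ),
        w * (FreeGroup.of 0)⁻¹ ∈ commutator (FreeGroup (Fin (n + 1))) ∧
          Realizes c P (fun κ _ => projPoints G κ) fun κ _ => Moduli (OneRel w) κ) ∧
    (∀ (N : ℕ) (G : Finset (MvPolynomial (Fin N) ℤ)),
      ∃ (n : ℕ) (w : FreeGroup (Fin (n + 1))) (c : ℕ) (P : Polynomial ℤ),
        w * (FreeGroup.of 0)⁻¹ ∈ commutator (FreeGroup (Fin (n + 1))) ∧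
          Realizes c P (fun κ _ => affPoints G κ) fun κ _ => Moduli (OneRel w) κ) ∧
    ∀ n : ℕ, 2 ≤ n →
      ((∀ G : Finset (MvPolynomial (Fin n) ℤ), AllContinue (count fun κ _ => affPoints G κ)) ↔
        ∀ w : FreeGroup (Fin n), AllContinue (count fun κ _ => Moduli (OneRel w) κ)) ∧
      ((∀ G : Finset (MvPolynomial (Fin n) ℤ), AllContinue (count fun κ _ => affPoints G κ)) ↔
        ∀ w ∈ commutator (FreeGroup (Fin n)),
          AllContinue (count fun κ _ => Moduli (OneRel w) κ)) := by
  refine ⟨fun N G hG => ?_, fun N G => ?_, fun n hn => ⟨equivalence hn, equivalence_comm hn⟩⟩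
  · obtain ⟨n, w, c, P, hw, h⟩ := exists_group_proj G hG
    exact ⟨n, w, c, P, hw, realizes h⟩
  · obtain ⟨n, w, c, P, hw, h⟩ := exists_group_aff G
    exact ⟨n, w, c, P, hw, realizes h⟩

end Pool.Agent.Results.MP_148101_nt.OneRelatorGroups
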