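import Pool.Agent.KS6_3.B2.Main

/-!
# L-functions of all weights of projective schemes and smooth affine cubic hypersurfaces

For a smooth projective variety `X` over `ℚ`, given by equations with integral coefficients, and a
set `S` of primes which contains the primes of bad reduction, the Euler product
`L^i_S(X, s) = ∏_{p ∉ S} det(1 - Frob_p p^{-s} | H^i(X))⁻¹` is determined by the numbers of points of
`X` over the finite fields of characteristic `p ∉ S`: these numbers are sums
`∑_i (-1)^i ∑_j α_{ij} ^ k`, and by Deligne the eigenvalues `α_{ij}` of `H^i` are the ones with the
absolute value `p ^ (i / 2)`. We use this for the definition of the L-function of weight `i`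
(`IsFrob`, `eulerFactor`, `IsL`) for all schemes of finite type over `ℤ`. It is unique
(`Pool.Agent.KS6_3.B2.isL_unique`).

For a finite set `H` of triples `(i, k, j)` let `Y_H` be the affine cubic hypersurface
`∑_{(i, k, j) ∈ H} x̂_i ŷ_k z_j = 1`, where `x̂`, `ŷ` are the tuples `x`, `y` of variables extended
by `1`. It is smooth over `ℤ`.

**Theorem.** For every projective scheme `X` over `ℤ` there is a set `H` with
`#Y_H(κ) + q ^ c #X(κ) = q ^ D` for all finite fields `κ`, and the L-function of `X` of every weight
`i ≤ 2n` (`X` is contained in the projective space of dimension `n`) is, up to the shift by `c`, the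
inverse of the L-function of `Y_H` of weight `i + 2 c`. So Q1 for `L^i_S(X, s)` (the meromorphic
continuation, and the holomorphic one) is a property of the weight `i + 2 c` of `Y_H`. More
precisely the Frobenius eigenvalues of weight `i + 2 c` of `Y_H` are those of weight `i` of `X`
multiplied by `p ^ c` (with the opposite multiplicities), at every prime `p`; therefore the same
holds for the L-functions of all direct factors of `h^i(X)`.

The same is true for the closed subschemes of the affine space of dimension `N`, where the `x_i` are
the coordinates of the affine space. For every `N` the meromorphic continuation of the L-functions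
of all weights of all closed subschemes of the affine space of dimension `N` is equivalent to the
one of the cubic hypersurfaces `Y_H` with `N` variables `x_i`. It is enough to consider the sets `H`
with at most three monomials for every `z_j`; if there are at most two monomials for every `z_j`, all
L-functions of `Y_H` are, up to finitely many Euler factors, products of shifted Dirichlet
L-functions and their inverses, and have a meromorphic continuation.

Proof. `X` is replaced by the affine bundle of Jouanolou (matrices of rank one and trace one with
columns in the cone of `X`); its equations are written as a system of bilinear equations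
`q_j(x, y) = 0` with coefficients `0`, `1` and at most three terms; the hypersurface is
`∑ z_j q_j(x, y) = 1`. For the converse the hypersurface is divided according to the ranks of the
linear systems `q_j(x, ·) = 0`. In the case of two monomials the solutions of the system
`q_j(x, y) = 0` with a given support are a translate of a diagonalizable group, or there are none.
-/

set_option autoImplicit false

open MvPolynomial Pool.Agent.KS6_3.B2

namespace Pool.Agent.Results.MP_148101_nt.SmoothAffineCubics

/-- **Theorem.** (1) The cubic hypersurfaces are smooth over `ℤ`. (2) Every closed subscheme of a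
projective space corresponds to a sparse cubic hypersurface. (3) So does every closed subscheme of
the affine space of dimension `N`, with `N` variables `x_i`. (4) For every `N` all L-functions of
the closed subschemes of the affine space of dimension `N` have a meromorphic continuation if and
only if those of the cubic hypersurfaces with `N` variables `x_i` have; the sparse ones suffice. (5) This
is true for the cubic hypersurfaces with at most two monomials for every `z_j`. -/
theorem result :
    (∀ (a b m : ℕ) (H : Finset (Option (Fin a) × Option (Fin b) × Fin m)),
      Algebra.Smooth ℤ (CubicRing H)) ∧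
    (∀ (n : ℕ) (G : Finset (MvPolynomial (Fin (n + 1)) ℤ)), (∀ F ∈ G, ∃ d, F.IsHomogeneous d) →
      ∃ (a b m : ℕ) (H : Finset (Option (Fin a) × Option (Fin b) × Fin (m + 1))), Sparse H ∧
        Corresponds (m + n) (m + a + b) (2 * n) (fun κ _ => projPoints G κ)
          fun κ _ => cubicPoints H κ) ∧
    (∀ (N : ℕ) (G : Finset (MvPolynomial (Fin N) ℤ)),
      ∃ (b m : ℕ) (H : Finset (Option (Fin N) × Option (Fin b) × Fin (m + 1))), Sparse H ∧
        Corresponds m (m + N + b) (2 * N) (fun κ _ => affPoints G κ)
          fun κ _ => cubicPoints H κ) ∧
    (∀ N : ℕ,
      ((∀ G : Finset (MvPolynomial (Fin N) ℤ), AllContinue (count fun κ _ => affPoints G κ)) ↔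
        ∀ (b m : ℕ) (H : Finset (Option (Fin N) × Option (Fin b) × Fin (m + 1))),
          AllContinue (count fun κ _ => cubicPoints H κ)) ∧
      ((∀ G : Finset (MvPolynomial (Fin N) ℤ), AllContinue (count fun κ _ => affPoints G κ)) ↔
        ∀ (b m : ℕ) (H : Finset (Option (Fin N) × Option (Fin b) × Fin (m + 1))), Sparse H →
          AllContinue (count fun κ _ => cubicPoints H κ))) ∧
    ∀ (N b m : ℕ) (H : Finset (Option (Fin N) × Option (Fin b) × Fin (m + 1))), Binomial H →
      DirichletType (count fun κ _ => cubicPoints H κ) ∧
        AllContinue (count fun κ _ => cubicPoints H κ) := by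
  have key : ∀ N : ℕ, (∀ (b m : ℕ) (H : Finset (Option (Fin N) × Option (Fin b) × Fin (m + 1))),
      Sparse H → AllContinue (count fun κ _ => cubicPoints H κ)) →
      ∀ G : Finset (MvPolynomial (Fin N) ℤ), AllContinue (count fun κ _ => affPoints G κ) := by
    intro N h G
    obtain ⟨b, m, H, hH, -, hc⟩ := exists_cubic_aff G
    exact continue_aff (Y := fun κ _ => cubicPoints H κ) hc (h b m H hH)
  refine ⟨fun a b m H => cubic_smooth H, ?_, ?_, fun N => ⟨?_, ?_⟩, fun N b m H hH =>
    binomial_continue H hH⟩
  · intro n G hG
    obtain ⟨a, b, m, H, hab, hH, hc⟩ := exists_cubic G hG
    exact ⟨a, b, m, H, hH, corresponds hc (by omega)⟩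
  · intro N G
    obtain ⟨b, m, H, hH, hb, hc⟩ := exists_cubic_aff G
    exact ⟨b, m, H, hH, corresponds hc (by omega)⟩
  · exact ⟨fun h b m H => continue_cubic h H, fun h => key N fun b m H _ => h b m H⟩
  · exact ⟨fun h b m H _ => continue_cubic h H, key N⟩

end Pool.Agent.Results.MP_148101_nt.SmoothAffineCubics
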